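import Pool.Agent.H925Z.Four
import Pool.Agent.H925Z.Luzin

/-!
`Δ`-regressive colourings of the pairs of `2 ^ κ`, `κ` uncountable: a monochromatic set with four
elements always exists; an infinite (uncountable) one must exist exactly when `2 ^ ℵ₀ < 2 ^ κ`;
and a forcing notion keeps `ω₁` and forces `2 ^ ℵ₀ = 2 ^ ℵ₁`.
-/

set_option autoImplicit false

universe u

namespace Pool.Agent.Results.MP_553296_lc.Complete

open Cardinal Set Pool.Agent.H925Z

theorem result :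
    (∀ κ : Cardinal.{u}, ℵ₀ < κ →
      (∀ c : Sym2 (Seq κ) → Iio κ.ord, Regressive c →
        ∃ Y : Set (Seq κ), Y.encard = 4 ∧ Monochromatic c Y) ∧
      ((2 : Cardinal.{u}) ^ ℵ₀ < 2 ^ κ → ∀ c : Sym2 (Seq κ) → Iio κ.ord, Regressive c →
        ∃ Y : Set (Seq κ), ¬ Y.Countable ∧ Monochromatic c Y) ∧
      ((2 : Cardinal.{u}) ^ ℵ₀ = 2 ^ κ → ∃ c : Sym2 (Seq κ) → Iio κ.ord, Regressive c ∧
        ∀ Y : Set (Seq κ), Monochromatic c Y → Y.encard ≤ 4)) ∧
    (∃ (P : Type) (_ : Preorder P) (I : Type), Nonempty P ∧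
      ∀ p : P, p ∈ Pool.Agent.Helper292.ForceCH.OmegaOnePreserved P ∧
        p ∈ Luzin.PowersEqual P I) :=
  ⟨fun _ hκ => ⟨four_mono hκ, uncountable_mono hκ, no_five hκ⟩, Luzin.exists_forcing⟩

end Pool.Agent.Results.MP_553296_lc.Complete
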